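import Mathlib

/-! Numerics for the explicit upper bound. -/

set_option autoImplicit false

namespace Pool.Agent.Y928.PS.Num

/-- choice of the parameters -/
theorem num (C : ℕ) : ∀ n : ℕ, 2 ^ 16 ≤ n → ∃ r κ a : ℕ, 0 < κ ∧ n ≤ 2 ^ (r * a) ∧
    ∀ M : ℕ, M ≤ C * (a + 1) + C * (r + 1) * (r + κ + 1) * (Nat.log 2 (r * (a + 1)) + 1) +
      r * (r + 1) * (a / κ + 1) →
      M ^ 4 ≤ 16 * (27 * C + 6) ^ 4 * (Nat.log 2 n) ^ 3 * Nat.log 2 (Nat.log 2 n) := by
  intro n hn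
  set L := Nat.log 2 n with hL
  set l := Nat.log 2 L with hl
  have hL16 : 16 ≤ L := Nat.le_log_of_pow_le (by norm_num) hn
  have hl1 : 1 ≤ l := Nat.le_log_of_pow_le (by norm_num) (by omega)
  have hlL : l < L := Nat.log_lt_self 2 (by omega)
  set q := L / l with hq
  have hq1 : 1 ≤ q := Nat.div_pos hlL.le (by omega)
  obtain ⟨r, hr⟩ : ∃ r, r = Nat.sqrt (Nat.sqrt q) := ⟨_, rfl⟩
  have hr1 : 1 ≤ r := by
    rw [hr]
    have h1 : 1 ≤ Nat.sqrt q := Nat.sqrt_pos.2 (by omega)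
    exact Nat.sqrt_pos.2 (by omega)
  have hr4 : r ^ 4 * l ≤ L := by
    have h1 : r * r ≤ Nat.sqrt q := by rw [hr]; exact Nat.sqrt_le _
    have h2 : Nat.sqrt q * Nat.sqrt q ≤ q := Nat.sqrt_le _
    have h3 : r ^ 4 ≤ q := by
      calc r ^ 4 = (r * r) * (r * r) := by ring
        _ ≤ Nat.sqrt q * Nat.sqrt q := Nat.mul_le_mul h1 h1
        _ ≤ q := h2
    calc r ^ 4 * l ≤ q * l := Nat.mul_le_mul_right _ h3
      _ ≤ L := Nat.div_mul_le_self L l
  have hr4' : L ≤ 16 * (r ^ 4 * l) := by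
    have h1 : Nat.sqrt q < (r + 1) * (r + 1) := by rw [hr]; exact Nat.lt_succ_sqrt _
    have h2 : q < (Nat.sqrt q + 1) * (Nat.sqrt q + 1) := Nat.lt_succ_sqrt _
    have h3 : q < (r + 1) ^ 4 := by
      calc q < (Nat.sqrt q + 1) * (Nat.sqrt q + 1) := h2
        _ ≤ ((r + 1) * (r + 1)) * ((r + 1) * (r + 1)) := Nat.mul_le_mul h1 h1
        _ = (r + 1) ^ 4 := by ring
    have h4 : (r + 1) ^ 4 ≤ (2 * r) ^ 4 := Nat.pow_le_pow_left (by omega) 4
    have h5 : L < l * (q + 1) := Nat.lt_mul_div_succ L (by omega)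
    have h6 : q + 1 ≤ 16 * r ^ 4 := by
      have : (2 * r) ^ 4 = 16 * r ^ 4 := by ring
      omega
    calc L ≤ l * (q + 1) := h5.le
      _ ≤ l * (16 * r ^ 4) := Nat.mul_le_mul_left _ h6
      _ = 16 * (r ^ 4 * l) := by ring
  have hrr : r ≤ r ^ 4 * l := by
    calc r = r * 1 * 1 := by ring
      _ ≤ r * (r ^ 3) * l := Nat.mul_le_mul (Nat.mul_le_mul_left _ (Nat.one_le_pow _ _ hr1)) hl1
      _ = r ^ 4 * l := by ring
  have hr3 : r ^ 3 ≤ r ^ 4 * l := by
    calc r ^ 3 = 1 * r ^ 3 * 1 := by ring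
      _ ≤ r * (r ^ 3) * l := Nat.mul_le_mul (Nat.mul_le_mul_right _ hr1) hl1
      _ = r ^ 4 * l := by ring
  have hrL : r ≤ L := hrr.trans hr4
  obtain ⟨a, ha⟩ : ∃ a, a = L / r + 1 := ⟨_, rfl⟩
  have hra1 : r * a ≤ L + r := by
    rw [ha, mul_add, mul_one]
    exact Nat.add_le_add_right (Nat.mul_div_le L r) r
  have hra2 : L < r * a := by
    rw [ha]
    exact Nat.lt_mul_div_succ L (by omega)
  refine ⟨r, r ^ 2, a, by positivity, ?_, ?_⟩
  · have h1 : n < 2 ^ (L + 1) := Nat.lt_pow_succ_log_self (by norm_num) n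
    exact h1.le.trans (Nat.pow_le_pow_right (by norm_num) hra2)
  · intro M hM
    have ht : Nat.log 2 (r * (a + 1)) ≤ l + 2 := by
      have h1 : r * (a + 1) ≤ 4 * L := by rw [mul_add, mul_one]; omega
      have h2 : Nat.log 2 (r * (a + 1)) ≤ Nat.log 2 (4 * L) := Nat.log_mono_right h1
      have h3 : Nat.log 2 (4 * L) = l + 2 := by
        have e : 4 * L = L * 2 * 2 := by ring
        rw [e, Nat.log_mul_base (by norm_num) (by omega), Nat.log_mul_base (by norm_num) (by omega)]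
      omega
    have hkey : r * M ≤ (27 * C + 6) * L := by
      have p1 : r * (C * (a + 1)) ≤ C * (3 * L) := by
        have : r * (a + 1) ≤ 3 * L := by rw [mul_add, mul_one]; omega
        calc r * (C * (a + 1)) = C * (r * (a + 1)) := by ring
          _ ≤ C * (3 * L) := Nat.mul_le_mul_left _ this
      have p2 : r * (C * (r + 1) * (r + r ^ 2 + 1) * (Nat.log 2 (r * (a + 1)) + 1)) ≤
          24 * C * L := by
        have e1 : r + 1 ≤ 2 * r := by omega
        have e2 : r + r ^ 2 + 1 ≤ 3 * r ^ 2 := by nlinarith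
        have e3 : Nat.log 2 (r * (a + 1)) + 1 ≤ 4 * l := by omega
        calc r * (C * (r + 1) * (r + r ^ 2 + 1) * (Nat.log 2 (r * (a + 1)) + 1))
            ≤ r * (C * (2 * r) * (3 * r ^ 2) * (4 * l)) := by gcongr
          _ = 24 * C * (r ^ 4 * l) := by ring
          _ ≤ 24 * C * L := Nat.mul_le_mul_left _ hr4
      have p3 : r * (r * (r + 1) * (a / r ^ 2 + 1)) ≤ 6 * L := by
        have e1 : r ^ 2 * (a / r ^ 2) ≤ a := Nat.mul_div_le _ _
        have e2 : r * (r + 1) * (a / r ^ 2 + 1) ≤ 2 * (a + r ^ 2) := by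
          calc r * (r + 1) * (a / r ^ 2 + 1) ≤ r * (2 * r) * (a / r ^ 2 + 1) := by
                gcongr; omega
            _ = 2 * (r ^ 2 * (a / r ^ 2) + r ^ 2) := by ring
            _ ≤ 2 * (a + r ^ 2) := by omega
        calc r * (r * (r + 1) * (a / r ^ 2 + 1)) ≤ r * (2 * (a + r ^ 2)) :=
              Nat.mul_le_mul_left _ e2
          _ = 2 * (r * a + r ^ 3) := by ring
          _ ≤ 6 * L := by omega
      calc r * M ≤ r * (C * (a + 1) + C * (r + 1) * (r + r ^ 2 + 1) *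
            (Nat.log 2 (r * (a + 1)) + 1) + r * (r + 1) * (a / r ^ 2 + 1)) :=
            Nat.mul_le_mul_left _ hM
        _ = r * (C * (a + 1)) + r * (C * (r + 1) * (r + r ^ 2 + 1) *
            (Nat.log 2 (r * (a + 1)) + 1)) + r * (r * (r + 1) * (a / r ^ 2 + 1)) := by ring
        _ ≤ C * (3 * L) + 24 * C * L + 6 * L := by omega
        _ = (27 * C + 6) * L := by ring
    have hL0 : 0 < L := by omega
    have h7 : L * M ^ 4 ≤ L * (16 * (27 * C + 6) ^ 4 * L ^ 3 * l) := by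
      calc L * M ^ 4 ≤ 16 * (r ^ 4 * l) * M ^ 4 := Nat.mul_le_mul_right _ hr4'
        _ = 16 * l * (r * M) ^ 4 := by ring
        _ ≤ 16 * l * ((27 * C + 6) * L) ^ 4 := by gcongr
        _ = L * (16 * (27 * C + 6) ^ 4 * L ^ 3 * l) := by ring
    exact Nat.le_of_mul_le_mul_left h7 hL0

end Pool.Agent.Y928.PS.Num
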