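import Mathlib
import Pool.Agent.W926.PS.Final
import Pool.Agent.Y928.PS.Num

/-! An explicit upper bound for the size of families which `t`-shatter all `k`-sets, `k ≥ 6`,
`t ≤ 21`. -/

set_option autoImplicit false

namespace Pool.Agent.Y928.PS.Up

open Finset W926.PS

/-- families with the explicit bound -/
theorem up4 (hR : S_RICH) (hC : S_CNT) (hRk : S_RANK) :
    ∃ D : ℕ, ∀ n : ℕ, 2 ^ 16 ≤ n → ∃ P : Finset (Equiv.Perm (Fin n)),
      P.card ^ 4 ≤ D * (Nat.log 2 n) ^ 3 * Nat.log 2 (Nat.log 2 n) ∧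
      ∀ x : Fin 6 → Fin n, Function.Injective x →
        21 ≤ (P.image (fun ρ => ipat x (fun y => (ρ y : ℕ)))).card := by
  classical
  obtain ⟨C, hC1⟩ := hR
  refine ⟨16 * (27 * C + 6) ^ 4, fun n hn0 => ?_⟩
  obtain ⟨r, κ, a, hκ, ha, hb⟩ := Pool.Agent.Y928.PS.Num.num C n hn0
  obtain ⟨F, hF, hFc⟩ := hC1 r κ a
  have hcard : Fintype.card (Fin n) ≤ Fintype.card (Om r a) := by
    have h1 : Fintype.card (Om r a) = 2 ^ (r * a) := by
      simp only [Om, Fintype.card_fun, Fintype.card_bool, Fintype.card_fin]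
      rw [← pow_mul, mul_comm]
    rw [h1, Fintype.card_fin]
    exact ha
  obtain ⟨ι⟩ := Function.Embedding.nonempty_of_card_le hcard
  have hex : ∀ key ∈ F, ∃ ρ : Equiv.Perm (Fin n), ∀ x y, ρ x < ρ y ↔ key (ι x) < key (ι y) :=
    fun key hk => hRk n (fun x => key (ι x)) ((hF.inj key hk).comp ι.injective)
  choose! ρ hρ using hex
  refine ⟨F.image ρ, hb _ (Finset.card_image_le.trans hFc), ?_⟩
  · intro x hx
    have h1 := hC r a κ F hκ hF (fun i => ι (x i)) (ι.injective.comp hx)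
    refine h1.trans (le_of_eq ?_)
    unfold np
    rw [Finset.image_image]
    congr 1
    refine Finset.image_congr ?_
    intro key hk
    funext i k
    unfold ipat
    simp only [Function.comp_apply]
    rw [decide_eq_decide]
    rw [← hρ key hk (x i) (x k)]
    exact Fin.lt_def.symm

/-- shattering of a subset implies shattering of the set -/
theorem shatters_mono {n t : ℕ} {P : Finset (Equiv.Perm (Fin n))} {X Y : Finset (Fin n)}
    (hXY : X ⊆ Y) (h : W926.PS.Shatters t P X) : W926.PS.Shatters t P Y := by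
  classical
  unfold W926.PS.Shatters at h ⊢
  refine h.trans ?_
  set g : ((Y → Y → Prop)) → (X → X → Prop) :=
    fun R x y => R ⟨x.1, hXY x.2⟩ ⟨y.1, hXY y.2⟩ with hg
  have him : (fun ρ : Equiv.Perm (Fin n) => inducedOrder ρ X) '' (P : Set (Equiv.Perm (Fin n))) =
      g '' ((fun ρ : Equiv.Perm (Fin n) => inducedOrder ρ Y) '' (P : Set (Equiv.Perm (Fin n)))) := by
    rw [Set.image_image]
    rfl
  rw [him]
  exact Set.ncard_image_le ((P.finite_toSet).image _)

/-- the explicit upper bound -/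
theorem upper34 (hR : S_RICH) (hC : S_CNT) (hRk : S_RANK) (hV : S_CONV) :
    ∃ C : ℝ, 0 < C ∧ ∃ n₀ : ℕ, ∀ n ≥ n₀, ∀ k t : ℕ, 6 ≤ k → t ≤ 21 →
      (f k n t : ℝ) ≤ C * Real.log n ^ (3 / 4 : ℝ) * Real.log (Real.log n) ^ (1 / 4 : ℝ) := by
  obtain ⟨D, hD⟩ := up4 hR hC hRk
  refine ⟨(32 * (D : ℝ) + 1) ^ (1 / 4 : ℝ), by positivity, 2 ^ 16, fun n hn k t hk ht => ?_⟩
  obtain ⟨P, hP, hsh⟩ := hD n hn
  have hf : f k n t ≤ P.card := by
    apply f_le
    intro X hX
    obtain ⟨X', hX', hc⟩ := Finset.exists_subset_card_eq (show 6 ≤ X.card by omega)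
    obtain ⟨x, hx, rfl⟩ := exists_tuple X' hc
    refine shatters_mono hX' ?_
    unfold W926.PS.Shatters
    rw [hV n P x hx]
    exact ht.trans (hsh x hx)
  have hn1 : (1 : ℝ) ≤ n := by
    exact_mod_cast (le_trans (by norm_num) hn : 1 ≤ n)
  set x := Real.log n with hxdef
  have hx2 : 2 ≤ x := by
    have h1 : Real.log ((2 : ℝ) ^ 16) ≤ x := by
      apply Real.log_le_log (by positivity)
      exact_mod_cast hn
    rw [Real.log_pow] at h1
    have h2 : (0.6931471803 : ℝ) < Real.log 2 := Real.log_two_gt_d9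
    push_cast at h1
    linarith
  set L := Nat.log 2 n with hL
  have hL1 : (L : ℝ) ≤ 2 * x := natlog_le n (le_trans (by norm_num) hn)
  have hL16 : 16 ≤ L := Nat.le_log_of_pow_le (by norm_num) hn
  have hLpos : (0 : ℝ) < L := by
    have : 0 < L := by omega
    exact_mod_cast this
  have hl1 : ((Nat.log 2 L : ℕ) : ℝ) ≤ 4 * Real.log x := by
    have h1 := natlog_le L (by omega)
    have h2 : Real.log L ≤ Real.log (2 * x) := Real.log_le_log hLpos hL1
    rw [Real.log_mul (by norm_num) (by linarith)] at h2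
    have h3 : Real.log 2 ≤ Real.log x := Real.log_le_log (by norm_num) hx2
    linarith
  have hy0 : 0 ≤ Real.log x := Real.log_nonneg (by linarith)
  have hx0 : 0 ≤ x := by linarith
  have h4 : ((P.card : ℕ) : ℝ) ^ 4 ≤ (32 * (D : ℝ) + 1) * x ^ 3 * Real.log x := by
    have h5 : ((P.card : ℕ) : ℝ) ^ 4 ≤ (D : ℝ) * (L : ℝ) ^ 3 * ((Nat.log 2 L : ℕ) : ℝ) := by
      exact_mod_cast hP
    have h6 : (L : ℝ) ^ 3 ≤ (2 * x) ^ 3 := pow_le_pow_left₀ hLpos.le hL1 3
    have h7 : (D : ℝ) * (L : ℝ) ^ 3 * ((Nat.log 2 L : ℕ) : ℝ) ≤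
        (D : ℝ) * (2 * x) ^ 3 * (4 * Real.log x) := by
      apply mul_le_mul _ hl1 (Nat.cast_nonneg _) (by positivity)
      exact mul_le_mul_of_nonneg_left h6 (Nat.cast_nonneg _)
    have h8 : (D : ℝ) * (2 * x) ^ 3 * (4 * Real.log x) = 32 * (D : ℝ) * x ^ 3 * Real.log x := by
      ring
    have h9 : 0 ≤ x ^ 3 * Real.log x := by positivity
    nlinarith
  have hfin : ((P.card : ℕ) : ℝ) ≤
      (32 * (D : ℝ) + 1) ^ (1 / 4 : ℝ) * x ^ (3 / 4 : ℝ) * Real.log x ^ (1 / 4 : ℝ) := by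
    refine le_of_pow_le_pow_left₀ (n := 4) (by norm_num) (by positivity) (h4.trans (le_of_eq ?_))
    rw [mul_pow, mul_pow, ← Real.rpow_natCast (_ ^ (1 / 4 : ℝ)) 4,
      ← Real.rpow_natCast (x ^ (3 / 4 : ℝ)) 4, ← Real.rpow_natCast (Real.log x ^ (1 / 4 : ℝ)) 4,
      ← Real.rpow_mul (by positivity), ← Real.rpow_mul hx0, ← Real.rpow_mul hy0,
      ← Real.rpow_natCast x 3]
    norm_num
  exact le_trans (by exact_mod_cast hf) hfin

end Pool.Agent.Y928.PS.Up
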